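import Pool.Agent.TH985.WP.Defs2

/-!
# Bordered positive definite matrices (job 1250)
-/

set_option autoImplicit false
open MeasureTheory ProbabilityTheory Matrix
open scoped ENNReal

namespace Pool.Agent.TH416.WP

open Pool.Agent.TH985.WP

lemma symm_herm {ι : Type} (x : Sym2 ι → ℝ) : (symm x).IsHermitian := by
  ext i j
  rw [conjTranspose_apply, star_trivial]
  show x s(j, i) = x s(i, j)
  rw [Sym2.eq_swap]

lemma quad_option {ι : Type} [Fintype ι] (L : Matrix (Option ι) (Option ι) ℝ)
    (z : Option ι → ℝ) :
    z ⬝ᵥ L *ᵥ z = (fun i => z (some i)) ⬝ᵥ (L.submatrix some some) *ᵥ (fun i => z (some i)) +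
      z none * ((fun i => L (some i) none) ⬝ᵥ (fun i => z (some i))) +
      z none * ((fun j => L none (some j)) ⬝ᵥ (fun j => z (some j))) +
      z none ^ 2 * L none none := by
  simp only [dotProduct, mulVec, Fintype.sum_option, submatrix_apply, mul_add, Finset.sum_add_distrib,
    Finset.mul_sum]
  have h1 : ∑ i, z (some i) * (L (some i) none * z none) =
      ∑ i, z none * (L (some i) none * z (some i)) :=
    Finset.sum_congr rfl (fun i _ => by ring)
  rw [h1]
  ring

lemma border_sub {ι : Type} (x : Sym2 ι → ℝ) (v : ι → ℝ) (y : ℝ) :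
    (symm (border x v y)).submatrix some some = symm x := by
  ext i j
  rfl

/-- completing the square -/
lemma square {ι : Type} [Fintype ι] [DecidableEq ι] (X : Matrix ι ι ℝ) (hX : X.IsHermitian)
    (v w : ι → ℝ) (hw : X *ᵥ w = v) (u : ι → ℝ) (t : ℝ) :
    u ⬝ᵥ X *ᵥ u + t * (v ⬝ᵥ u) + t * (v ⬝ᵥ u) =
      (u + t • w) ⬝ᵥ X *ᵥ (u + t • w) - t ^ 2 * (v ⬝ᵥ w) := by
  have hs : ∀ a b : ι → ℝ, a ⬝ᵥ X *ᵥ b = b ⬝ᵥ X *ᵥ a := by
    intro a b
    rw [dotProduct_mulVec, ← mulVec_transpose, dotProduct_comm]
    have hT : Xᵀ = X := by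
      have := hX.eq
      rwa [conjTranspose_eq_transpose_of_trivial] at this
    rw [hT]
  have h1 : w ⬝ᵥ X *ᵥ u = v ⬝ᵥ u := by
    rw [hs, hw, dotProduct_comm]
  have h2 : w ⬝ᵥ X *ᵥ w = v ⬝ᵥ w := by
    rw [hw, dotProduct_comm]
  rw [mulVec_add, mulVec_smul, add_dotProduct, dotProduct_add, dotProduct_add, smul_dotProduct,
    smul_dotProduct, dotProduct_smul, dotProduct_smul, hs u w, h1, h2]
  simp only [smul_eq_mul]
  ring

lemma border_quad {ι : Type} [Fintype ι] [DecidableEq ι] (x : Sym2 ι → ℝ) (v : ι → ℝ)
    (y : ℝ) (hx : IsUnit (symm x).det) (z : Option ι → ℝ) :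
    z ⬝ᵥ symm (border x v y) *ᵥ z =
      ((fun i => z (some i)) + z none • ((symm x)⁻¹ *ᵥ v)) ⬝ᵥ
        (symm x) *ᵥ ((fun i => z (some i)) + z none • ((symm x)⁻¹ *ᵥ v)) +
      z none ^ 2 * (y - v ⬝ᵥ (symm x)⁻¹ *ᵥ v) := by
  have hw : symm x *ᵥ ((symm x)⁻¹ *ᵥ v) = v := by
    rw [mulVec_mulVec, mul_nonsing_inv _ hx, one_mulVec]
  rw [quad_option, border_sub]
  have h1 := square (symm x) (symm_herm x) v _ hw (fun i => z (some i)) (z none)
  have e1 : (fun i => symm (border x v y) (some i) none) = v := rfl
  have e2 : (fun i => symm (border x v y) none (some i)) = v := rfl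
  have e3 : symm (border x v y) none none = y := rfl
  rw [e1, e2, e3, h1]
  ring

theorem border_posDef {ι : Type} [Fintype ι] [DecidableEq ι] (x : Sym2 ι → ℝ) (v : ι → ℝ)
    (y : ℝ) : (symm (border x v y)).PosDef ↔
      (symm x).PosDef ∧ v ⬝ᵥ (symm x)⁻¹ *ᵥ v < y := by
  constructor
  · intro h
    have hX : (symm x).PosDef := by
      rw [← border_sub x v y]
      exact h.submatrix (Option.some_injective ι)
    refine ⟨hX, ?_⟩
    have hu : IsUnit (symm x).det := isUnit_iff_ne_zero.2 hX.det_pos.ne'
    have h1 := (posDef_iff_dotProduct_mulVec.1 h).2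
      (x := fun o => match o with | none => 1 | some i => -((symm x)⁻¹ *ᵥ v) i)
      (fun h0 => by
        have := congrFun h0 none
        simp at this)
    rw [star_trivial, border_quad x v y hu] at h1
    have e1 : ((fun i => -((symm x)⁻¹ *ᵥ v) i) + (1:ℝ) • ((symm x)⁻¹ *ᵥ v)) = 0 := by
      funext i
      simp
    simp only [e1] at h1
    simp only [zero_dotProduct, one_pow, one_mul, zero_add] at h1
    linarith
  · rintro ⟨hX, hy⟩
    have hu : IsUnit (symm x).det := isUnit_iff_ne_zero.2 hX.det_pos.ne'
    rw [posDef_iff_dotProduct_mulVec]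
    refine ⟨symm_herm _, fun z hz => ?_⟩
    rw [star_trivial, border_quad x v y hu]
    have hps : ∀ u : ι → ℝ, 0 ≤ u ⬝ᵥ (symm x) *ᵥ u := by
      intro u
      by_cases hu0 : u = 0
      · rw [hu0]; simp
      · have := (posDef_iff_dotProduct_mulVec.1 hX).2 hu0
        rw [star_trivial] at this
        exact this.le
    by_cases ht : z none = 0
    · have hne : (fun i => z (some i)) ≠ 0 := by
        intro h0
        apply hz
        funext o
        rcases o with _ | i
        · exact ht
        · exact congrFun h0 i
      have := (posDef_iff_dotProduct_mulVec.1 hX).2 hne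
      rw [star_trivial] at this
      simpa [ht] using this
    · have h2 : 0 < z none ^ 2 := by positivity
      have h3 : 0 < z none ^ 2 * (y - v ⬝ᵥ (symm x)⁻¹ *ᵥ v) := mul_pos h2 (by linarith)
      have := hps ((fun i => z (some i)) + z none • ((symm x)⁻¹ *ᵥ v))
      linarith

lemma det_option {ι : Type} [Fintype ι] [DecidableEq ι] (L : Matrix (Option ι) (Option ι) ℝ) :
    L.det = (fromBlocks (L.submatrix some some)
      (Matrix.of fun i (_ : Unit) => L (some i) none)
      (Matrix.of fun (_ : Unit) j => L none (some j))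
      (Matrix.of fun (_ _ : Unit) => L none none)).det := by
  rw [← det_submatrix_equiv_self (Equiv.optionEquivSumPUnit ι)]
  congr 1
  ext a b
  rcases a with _ | a <;> rcases b with _ | b <;> simp

theorem border_det {ι : Type} [Fintype ι] [DecidableEq ι] (x : Sym2 ι → ℝ) (v : ι → ℝ)
    (y : ℝ) (hx : (symm x).PosDef) :
    (symm (border x v y)).det = (symm x).det * (y - v ⬝ᵥ (symm x)⁻¹ *ᵥ v) := by
  have hu : IsUnit (symm x).det := isUnit_iff_ne_zero.2 hx.det_pos.ne'
  let _ := invertibleOfIsUnitDet (symm x) hu
  rw [det_option, border_sub, det_fromBlocks₁₁]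
  congr 1
  rw [det_unique]
  simp only [Matrix.sub_apply, Matrix.mul_apply, Matrix.of_apply, invOf_eq_nonsing_inv]
  have e3 : symm (border x v y) none none = y := rfl
  rw [e3]
  congr 1
  simp only [dotProduct, mulVec, Finset.mul_sum, Finset.sum_mul]
  rw [Finset.sum_comm]
  refine Finset.sum_congr rfl (fun i _ => Finset.sum_congr rfl (fun j _ => ?_))
  have e1 : symm (border x v y) none (some i) = v i := rfl
  have e2 : symm (border x v y) (some j) none = v j := rfl
  rw [e1, e2]
  ring

theorem schur_posDef {ι : Type} [Fintype ι] [DecidableEq ι] (L : Matrix (Option ι) (Option ι) ℝ)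
    (hL : L.PosDef) : 0 < L none none ∧
      (Matrix.of fun i j => L (some i) (some j) - L (some i) none * L (some j) none / L none none :
        Matrix ι ι ℝ).PosDef ∧
      L.det = L none none * (Matrix.of fun i j => L (some i) (some j) -
        L (some i) none * L (some j) none / L none none : Matrix ι ι ℝ).det := by
  have hsym : ∀ a b, L a b = L b a := by
    intro a b
    have := hL.isHermitian.apply a b
    rw [star_trivial] at this
    exact this.symm
  have hd : 0 < L none none := hL.diag_pos
  refine ⟨hd, ?_, ?_⟩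
  · rw [posDef_iff_dotProduct_mulVec]
    refine ⟨?_, fun u hu => ?_⟩
    · ext i j
      simp only [conjTranspose_apply, Matrix.of_apply, star_trivial]
      rw [hsym (some i) (some j)]
      ring
    · rw [star_trivial]
      set s : ℝ := (fun i => L (some i) none) ⬝ᵥ u with hs
      have h1 := (posDef_iff_dotProduct_mulVec.1 hL).2
        (x := fun o => match o with | none => -s / L none none | some i => u i)
        (fun h0 => hu (by
          funext i
          exact congrFun h0 (some i)))
      rw [star_trivial, quad_option] at h1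
      have e1 : (fun j => L none (some j)) = (fun i => L (some i) none) := by
        funext i
        exact hsym _ _
      rw [e1] at h1
      have e2 : u ⬝ᵥ (Matrix.of fun i j => L (some i) (some j) -
          L (some i) none * L (some j) none / L none none : Matrix ι ι ℝ) *ᵥ u =
          u ⬝ᵥ (L.submatrix some some) *ᵥ u - s ^ 2 / L none none := by
        have e3 : (Matrix.of fun i j => L (some i) (some j) -
          L (some i) none * L (some j) none / L none none : Matrix ι ι ℝ) =
          L.submatrix some some - (Matrix.of fun i j =>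
            L (some i) none * L (some j) none / L none none : Matrix ι ι ℝ) := by
          ext i j
          simp
        rw [e3, sub_mulVec, dotProduct_sub]
        congr 1
        rw [hs]
        simp only [dotProduct, mulVec, Matrix.of_apply]
        rw [sq, Finset.sum_mul_sum, Finset.sum_div]
        refine Finset.sum_congr rfl (fun i _ => ?_)
        rw [Finset.mul_sum, Finset.sum_div]
        refine Finset.sum_congr rfl (fun j _ => ?_)
        ring
      rw [e2]
      have e4 : -s / L none none * s + -s / L none none * s +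
          (-s / L none none) ^ 2 * L none none = - (s ^ 2 / L none none) := by
        field_simp
        ring
      simp only [← hs] at h1
      linarith
  · have hinv : (Matrix.of fun (_ _ : Unit) => L none none : Matrix Unit Unit ℝ) *
        (Matrix.of fun (_ _ : Unit) => (L none none)⁻¹) = 1 := by
      ext i j
      simp [Matrix.mul_apply, hd.ne']
    let _ := invertibleOfRightInverse _ _ hinv
    rw [det_option, det_fromBlocks₂₂]
    have hio : ⅟(Matrix.of fun (_ _ : Unit) => L none none : Matrix Unit Unit ℝ) =
        (Matrix.of fun (_ _ : Unit) => (L none none)⁻¹) := invOf_eq_right_inv hinv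
    rw [hio, det_unique]
    congr 1
    congr 1
    ext i j
    simp only [Matrix.sub_apply, Matrix.mul_apply, Matrix.of_apply, submatrix_apply,
      Finset.univ_unique, Finset.sum_singleton]
    rw [hsym none (some j)]
    ring

end Pool.Agent.TH416.WP
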