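import Pool.Agent.TH985.WP.Defs2

/-!
# A Gaussian integral with linear term (job 1248)
-/

set_option autoImplicit false
open MeasureTheory ProbabilityTheory Matrix
open scoped ENNReal MatrixOrder

namespace Pool.Agent.TH416.WP

lemma sq_int {n : Type} [Fintype n] :
    ∫⁻ y : n → ℝ, ENNReal.ofReal (Real.exp (-(y ⬝ᵥ y))) =
      ENNReal.ofReal (Real.pi ^ ((Fintype.card n : ℝ) / 2)) := by
  have h1 : ∀ y : n → ℝ, Real.exp (-(y ⬝ᵥ y)) = ∏ i, Real.exp (-1 * (y i) ^ 2) := by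
    intro y
    rw [← Real.exp_sum]
    congr 1
    rw [dotProduct, ← Finset.sum_neg_distrib]
    refine Finset.sum_congr rfl (fun i _ => ?_)
    ring
  simp only [h1]
  have hi : Integrable (fun y : n → ℝ => ∏ i, Real.exp (-1 * (y i) ^ 2)) :=
    Integrable.fintype_prod (f := fun (_ : n) (t : ℝ) => Real.exp (-1 * t ^ 2))
      (fun _ => integrable_exp_neg_mul_sq one_pos)
  rw [← ofReal_integral_eq_lintegral_ofReal hi
    (Filter.Eventually.of_forall (fun y => Finset.prod_nonneg (fun i _ => (Real.exp_pos _).le)))]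
  congr 1
  rw [integral_fintype_prod_volume_eq_prod (f := fun (_ : n) (t : ℝ) => Real.exp (-1 * t ^ 2))]
  simp only [integral_gaussian, div_one, Finset.prod_const, Finset.card_univ]
  rw [Real.sqrt_eq_rpow, ← Real.rpow_natCast, ← Real.rpow_mul Real.pi_pos.le]
  congr 1
  ring

theorem gauss_quad {n : Type} [Fintype n] [DecidableEq n] (A : Matrix n n ℝ) (hA : A.PosDef)
    (b : n → ℝ) :
    ∫⁻ x : n → ℝ, ENNReal.ofReal (Real.exp (-(x ⬝ᵥ A *ᵥ x) - 2 * (b ⬝ᵥ x))) =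
      ENNReal.ofReal (Real.pi ^ ((Fintype.card n : ℝ) / 2) * A.det ^ (-(1 / 2) : ℝ) *
        Real.exp (b ⬝ᵥ A⁻¹ *ᵥ b)) := by
  have hdet : 0 < A.det := hA.det_pos
  have hu : IsUnit A.det := isUnit_iff_ne_zero.2 hdet.ne'
  set c : n → ℝ := A⁻¹ *ᵥ b with hc
  have hAc : A *ᵥ c = b := by
    rw [hc, mulVec_mulVec, mul_nonsing_inv _ hu, one_mulVec]
  have hT : Aᵀ = A := by
    have := hA.isHermitian.eq
    rwa [conjTranspose_eq_transpose_of_trivial] at this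
  have hs : ∀ x y : n → ℝ, x ⬝ᵥ A *ᵥ y = y ⬝ᵥ A *ᵥ x := by
    intro x y
    rw [dotProduct_mulVec, ← mulVec_transpose, hT, dotProduct_comm]
  have h1 : ∀ x : n → ℝ, -((x - c) ⬝ᵥ A *ᵥ (x - c)) - 2 * (b ⬝ᵥ (x - c)) =
      -(x ⬝ᵥ A *ᵥ x) + b ⬝ᵥ c := by
    intro x
    rw [mulVec_sub, dotProduct_sub, sub_dotProduct, sub_dotProduct, hs c x, hAc, dotProduct_sub,
      dotProduct_comm x b, dotProduct_comm c b]
    ring
  rw [← lintegral_sub_right_eq_self (μ := volume)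
    (fun x : n → ℝ => ENNReal.ofReal (Real.exp (-(x ⬝ᵥ A *ᵥ x) - 2 * (b ⬝ᵥ x)))) c]
  simp only [h1]
  obtain ⟨B, hB⟩ := CStarAlgebra.nonneg_iff_eq_star_mul_self.mp hA.posSemidef.nonneg
  have hB' : A = Bᵀ * B := by
    rw [hB, star_eq_conjTranspose, conjTranspose_eq_transpose_of_trivial]
  have hdB : A.det = B.det ^ 2 := by
    rw [hB', det_mul, det_transpose, sq]
  have hB0 : B.det ≠ 0 := by
    intro h
    rw [hdB, h] at hdet
    simp at hdet
  have hquad : ∀ x : n → ℝ, x ⬝ᵥ A *ᵥ x = (toLin' B x) ⬝ᵥ (toLin' B x) := by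
    intro x
    rw [toLin'_apply, hB', ← mulVec_mulVec, dotProduct_mulVec, vecMul_transpose]
  have hsplit : ∀ x : n → ℝ, ENNReal.ofReal (Real.exp (-(x ⬝ᵥ A *ᵥ x) + b ⬝ᵥ c)) =
      ENNReal.ofReal (Real.exp (b ⬝ᵥ c)) *
        ENNReal.ofReal (Real.exp (-((toLin' B x) ⬝ᵥ (toLin' B x)))) := by
    intro x
    rw [hquad, Real.exp_add, mul_comm, ENNReal.ofReal_mul (Real.exp_pos _).le]
  simp only [hsplit]
  have hm : Measurable (fun y : n → ℝ => ENNReal.ofReal (Real.exp (-(y ⬝ᵥ y)))) := by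
    unfold dotProduct
    fun_prop
  have hmB : Measurable (toLin' B : (n → ℝ) → (n → ℝ)) :=
    (LinearMap.continuous_of_finiteDimensional (toLin' B)).measurable
  have h6 : ∫⁻ x : n → ℝ, ENNReal.ofReal (Real.exp (b ⬝ᵥ c)) *
        ENNReal.ofReal (Real.exp (-((toLin' B x) ⬝ᵥ (toLin' B x)))) =
      ENNReal.ofReal (Real.exp (b ⬝ᵥ c)) *
        ∫⁻ x : n → ℝ, ENNReal.ofReal (Real.exp (-((toLin' B x) ⬝ᵥ (toLin' B x)))) :=
    lintegral_const_mul _ (hm.comp hmB)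
  have h7 : ∫⁻ x : n → ℝ, ENNReal.ofReal (Real.exp (-((toLin' B x) ⬝ᵥ (toLin' B x)))) =
      ∫⁻ y, ENNReal.ofReal (Real.exp (-(y ⬝ᵥ y))) ∂(Measure.map (toLin' B) volume) :=
    (lintegral_map hm hmB).symm
  rw [h6, h7, Real.map_matrix_volume_pi_eq_smul_volume_pi hB0, lintegral_smul_measure, sq_int,
    smul_eq_mul, ← ENNReal.ofReal_mul (abs_nonneg _), ← ENNReal.ofReal_mul (Real.exp_pos _).le]
  congr 1
  have h5 : A.det ^ (-(1 / 2) : ℝ) = |B.det⁻¹| := by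
    rw [hdB, ← sq_abs, ← Real.rpow_natCast, ← Real.rpow_mul (abs_nonneg _)]
    norm_num
    rw [Real.rpow_neg (abs_nonneg _), Real.rpow_one]
  rw [h5]
  ring

end Pool.Agent.TH416.WP
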